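import Pool.Agent.H76.LX.Red
import Pool.Agent.H24.S6D.LxS
import Pool.Agent.H64.KS6.WfeA

/-!
# LEMMA X, class half: the block is full
-/

set_option autoImplicit false

namespace Pool.S6V

open Finset Real
open Pool.Agent.H49.Ent Pool.Agent.H32.Dense Pool.STK Pool.KA Pool.KSAT Pool.K2S Pool.PB Pool.KS6
  Pool.S6C Pool.S6U Pool.LXC

/-- The time is free given the line and its window, on large events. -/
theorem tm_sl {J : ℕ} {F : Fam 3 J} {τ c : ℝ} (hτ : 0 ≤ τ) (hc : 0 ≤ c) (hT : F.Tr)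
    (hM : F.Tm (τ * J)) (hR : F.Rb (τ * J)) {B : F.Ω → Prop}
    (hB : Real.exp (-(c * J)) ≤ Pe F.p B) {w : ℕ} (hw : w ≤ J) :
    ((J : ℝ) - w) * Real.log 2 - (5 * τ + c) * J ≤
      CH (Pool.Agent.H49.Ent.cond F.p B True) F.T (slam F w) := by
  have hB0 : 0 < Pe F.p B := lt_of_lt_of_le (Real.exp_pos _) hB
  have hl := isLaw_cond F.isLaw hB0
  have h1 := Pool.S6K.Wfe.res_Tm hτ hc hT hM hR hB hl
  obtain ⟨K, hK⟩ := Nat.exists_eq_add_of_le hw
  have h2 := Pool.KSAT.time_digits (F.res B True hl) (w := w) (K := K) (by omega) h1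
  have h3 : CH (F.res B True hl).p (fun ω => (((F.res B True hl).T1 (w + K) ω : ℕ) : ℤ))
      (slam (F.res B True hl) w) ≤
      CH (Pool.Agent.H49.Ent.cond F.p B True) F.T (slam F w) := by
    refine CH_mono_left (p := Pool.Agent.H49.Ent.cond F.p B True) hl.nonneg
      (fun ω ω' _ _ e => ?_)
    have e1 : F.T ω = F.T ω' := (Prod.ext_iff.mp e).1
    have e2 : F.T1 (w + K) ω = F.T1 (w + K) ω' := by
      unfold Fam.T1
      rw [e1]
    exact congrArg (fun n : ℕ => (n : ℤ)) e2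
  have e4 : ((J : ℝ) - w) = K := by
    have : (J : ℝ) = w + K := by exact_mod_cast hK
    rw [this]
    ring
  rw [e4]
  exact h2.trans h3

/-- The block of LEMMA X, for all windows `v ≤ x`. -/
def BLKv : Prop :=
  ∀ (S : PCl 3) (a R h₁ : ℝ) (i₀ : Fin 3) (c s₂ : ℝ) (r : ℝ → ℝ) (D : Set ℝ) (σ : ℝ → Row),
    Cs S a R h₁ i₀ c s₂ r D σ → ∀ (act : ℚ → ℝ) (κ : ℝ), ActD S i₀ act κ →
    ∀ (T p : ℝ) (v : ℚ) (q H : ℝ), PV (σ 1) T p v q H → ∀ a₀ α : ℝ, AcP act q a₀ α →
    ∀ x y : ℚ, v ≤ x → (v < x ∨ p < T + q) → x < y → (y : ℝ) < p → p - x < H →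
    ∀ η : ℝ, 0 < η → ∃ k₀ : ℝ, 0 < k₀ ∧ ∀ k : ℝ, 0 < k → k ≤ k₀ → ∀ C : ℝ, 1 ≤ C →
      Clp S (fun J F A =>
        ∀ ς : Fin 3 → Fin 3, Function.Injective ς → ς 0 = i₀ →
        ∀ (Λ : Type) (κ : F.Ω → Λ) (pl : Λ → Pln) (al : F.Ω → ℝ),
        PkL F A ς ⌊(v : ℝ) * J⌋₊ ⌊((σ 1).rot v - k) * J⌋₊ ⌊T * J⌋₊ C κ pl →
        NSt F A ς ⌊(T - v - k) * J⌋₊ ⌊(H - k) * J⌋₊ C κ pl →
        OwnS F A ς ⌊((σ 1).pi - k) * J⌋₊ C al →
        2 * (nb (σ 1) p q k x y J : ℕ) * Real.log 2 - (5 * (y - x) + η) * J * Real.log 2 ≤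
          blk F A ς (σ 1) p q k κ pl al x (nb (σ 1) p q k x y J))

/-- The levels in the case that the block is not empty. -/
theorem lev_one {xw lx ly Q N Lp U r n : ℕ} (e1 : r = min (xw + Q) N)
    (e3 : U = min (xw + lx + Q) N) (e5 : n = min (min (ly - lx) (N - U)) (Lp - Q - lx))
    (hn : 1 ≤ n) : r = xw + Q ∧ U = xw + lx + Q ∧ U - r = lx ∧ xw + Q + lx + n ≤ N ∧
      lx + n ≤ ly ∧ lx + n + Q ≤ Lp := by
  omega

/-- The numbers. -/
theorem num_loss {J n g : ℕ} {η k h ε₀ β K₁ ϖ D L2 xy w : ℝ} (hη : 0 < η) (hJ : (1 : ℝ) ≤ J)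
    (hL2 : L2 = Real.log 2) (hn : (n : ℝ) ≤ J)
    (hε : ε₀ = η / 256) (hβ : 0 < β) (hK : 0 < K₁) (hKβ : K₁ * β ≤ η / 256)
    (hβ1 : β ≤ η / 256) (hg : (g : ℝ) ≤ (k + 2 * h) * J + 2) (hkh : k + 2 * h ≤ η / 8)
    (hϖ : ϖ = η / 64) (hw0 : 0 ≤ w) (hw : w ≤ xy * J + 1) (hxy : 0 ≤ xy)
    (hD : 4 * K₁ / β + 2 * Real.log (J + 1) + 5 + K₁ ≤ η / 32 * J) :
    (3 * w * L2 + (4 * (ε₀ + K₁ * (β ^ 2 * J + 1) / (β * J)) * n + 8 * (β * J) +
      2 * Real.log (n + 1) + g * L2 + K₁)) + 2 * ϖ * n * L2 ≤ (5 * xy + η) * J * L2 := by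
  have hl : (1 : ℝ) / 2 ≤ L2 := by
    rw [hL2]
    have := Real.log_two_gt_d9
    linarith only [this]
  have hl1 : L2 ≤ 1 := by
    rw [hL2]
    have := Real.log_two_lt_d9
    linarith only [this]
  have hJ0 : (0 : ℝ) < J := by linarith only [hJ]
  have hn0 : (0 : ℝ) ≤ n := Nat.cast_nonneg n
  have e1 : K₁ * (β ^ 2 * J + 1) / (β * J) = K₁ * β + K₁ / β / J := by
    field_simp
  rw [e1]
  have e2 : 4 * (ε₀ + (K₁ * β + K₁ / β / J)) * n ≤ η / 32 * J + 4 * K₁ / β := by
    have h1 : 4 * (ε₀ + (K₁ * β + K₁ / β / J)) * n ≤ 4 * (ε₀ + (K₁ * β + K₁ / β / J)) * J :=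
      mul_le_mul_of_nonneg_left hn (by rw [hε]; positivity)
    have h4 : K₁ / β / (J : ℝ) * J = K₁ / β := div_mul_cancel₀ _ hJ0.ne'
    have h2 : 4 * (ε₀ + (K₁ * β + K₁ / β / J)) * J = 4 * (ε₀ + K₁ * β) * J + 4 * K₁ / β := by
      calc _ = 4 * (ε₀ + K₁ * β) * J + 4 * (K₁ / β / J * J) := by ring
        _ = _ := by rw [h4]; ring
    have h3 : 4 * (ε₀ + K₁ * β) * J ≤ η / 32 * J := by
      refine mul_le_mul_of_nonneg_right ?_ hJ0.le
      rw [hε]
      linarith only [hKβ]
    linarith only [h1, h2, h3]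
  have e3 : 8 * (β * J) ≤ η / 32 * J := by
    have := mul_le_mul_of_nonneg_right hβ1 hJ0.le
    linarith only [this]
  have e4 : Real.log (n + 1) ≤ Real.log (J + 1) :=
    Real.log_le_log (by linarith only) (by linarith only [hn])
  have e5 : g * L2 ≤ (η / 8 * J) * L2 + 2 := by
    have h1 := mul_le_mul_of_nonneg_right hkh hJ0.le
    have h2 : (g : ℝ) * L2 ≤ (η / 8 * J + 2) * L2 :=
      mul_le_mul_of_nonneg_right (by linarith only [hg, h1]) (by linarith only [hl])
    linarith only [hl1, h2]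
  have e6 : 2 * ϖ * n * L2 ≤ (η / 32 * J) * L2 := by
    refine mul_le_mul_of_nonneg_right ?_ (by linarith only [hl])
    rw [hϖ]
    have := mul_le_mul_of_nonneg_left hn hη.le
    linarith only [this]
  have e7 : 3 * w * L2 ≤ 3 * (xy * J) * L2 + 3 := by
    have h1 : 3 * w * L2 ≤ 3 * (xy * J + 1) * L2 :=
      mul_le_mul_of_nonneg_right (by linarith only [hw]) (by linarith only [hl])
    linarith only [hl1, h1]
  have e8 : η / 32 * J ≤ (η / 16 * J) * L2 := by
    have h1 : 0 ≤ η / 16 * J := by positivity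
    have h2 := mul_le_mul_of_nonneg_left hl h1
    linarith only [h2]
  have e9 : 0 ≤ xy * J * L2 := by
    have : 0 ≤ xy * J := by positivity
    exact mul_nonneg this (by linarith only [hl])
  have e10 : 0 ≤ η * J * L2 := by
    have : 0 ≤ η * J := by positivity
    exact mul_nonneg this (by linarith only [hl])
  linarith only [hD, e2, e3, e4, e5, e6, e7, e8, e9, e10]

/-- The numbers of the small constants. -/
structure Nc (x p T q H η : ℝ) (v : ℝ) (rx k₀ h ε ϖ : ℝ) : Prop where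
  k0 : 0 < k₀
  h0 : 0 < h
  kq : k₀ ≤ q / 8
  hq : h ≤ q / 16
  kη : k₀ ≤ η / 64
  hη : h ≤ η / 64
  kH : 2 * k₀ ≤ H - (p - x)
  kT : 2 * k₀ ≤ (T + q - p) + (x - v)

/-- **(BLK)** from LXE, LXT, LXF, LXB. -/
theorem blkv_of (hE : LxEStmt) (hT : LxTStmt) (hF : LxFStmt) (hB : LxBStmt) : BLKv := by
  intro S a R h₁ i₀ c s₂ r D₀ σ hC act κ₀ hact T p v q H hPV a₀ α hAc x y hvx hvx' hxy hyp hpH η hη
  classical
  have hu0 : 0 < Real.log 2 := Real.log_pos (by norm_num)
  have hq0 := hAc.q0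
  have hq1 := hAc.q1
  have hv0 : (0 : ℚ) < v := hPV.v0
  have hx0 : (0 : ℚ) < x := hv0.trans_le hvx
  have hp1 := hPV.p1
  have hy1 : (y : ℚ) ≤ 1 := by
    have : (y : ℝ) ≤ 1 := hyp.le.trans hp1.le
    exact_mod_cast this
  have hy0 : (0 : ℚ) ≤ y := hx0.le.trans hxy.le
  have hx1 : x ≤ 1 := hxy.le.trans hy1
  have hx0r : (0 : ℝ) < x := by exact_mod_cast hx0
  have hv0r : (0 : ℝ) < v := by exact_mod_cast hv0
  have hvxr : (v : ℝ) ≤ x := by exact_mod_cast hvx
  have hxyr : (x : ℝ) < y := by exact_mod_cast hxy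
  have hsl : 0 < (T + q - p) + ((x : ℝ) - v) := by
    have h1 := hPV.pT
    rcases hvx' with h2 | h2
    · have h3 : (v : ℝ) < x := by exact_mod_cast h2
      linarith
    · linarith
  -- the constants
  obtain ⟨η₁, hη₁⟩ : ∃ η₁, η₁ = min η 1 := ⟨_, rfl⟩
  have hη10 : 0 < η₁ := by rw [hη₁]; exact lt_min hη one_pos
  have hη1η : η₁ ≤ η := by rw [hη₁]; exact min_le_left _ _
  have hη11 : η₁ ≤ 1 := by rw [hη₁]; exact min_le_right _ _
  obtain ⟨h, hh⟩ : ∃ h, h = min (q / 16) (η₁ / 64) := ⟨_, rfl⟩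
  have hh0 : 0 < h := by rw [hh]; exact lt_min (by positivity) (by positivity)
  exact by
   have hhq : h ≤ q / 16 := by rw [hh]; exact min_le_left _ _
   have hhη : h ≤ η₁ / 64 := by rw [hh]; exact min_le_right _ _
   obtain ⟨k₀, hk₀⟩ : ∃ k₀, k₀ = min (min (q / 8) (η₁ / 64))
       (min ((H - (p - x)) / 2) (((T + q - p) + ((x : ℝ) - v)) / 2)) := ⟨_, rfl⟩
   have hk00 : 0 < k₀ := by
     rw [hk₀]
     exact lt_min (lt_min (by positivity) (by positivity)) (lt_min (by linarith only [hpH]) (by linarith only [hsl]))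
   have hkq : k₀ ≤ q / 8 := by rw [hk₀]; exact (min_le_left _ _).trans (min_le_left _ _)
   have hkη : k₀ ≤ η₁ / 64 := by rw [hk₀]; exact (min_le_left _ _).trans (min_le_right _ _)
   have hkH : k₀ ≤ (H - (p - x)) / 2 := by
     rw [hk₀]; exact (min_le_right _ _).trans (min_le_left _ _)
   have hkT : k₀ ≤ ((T + q - p) + ((x : ℝ) - v)) / 2 := by
     rw [hk₀]; exact (min_le_right _ _).trans (min_le_right _ _)
   refine ⟨k₀, hk00, fun k hk hkk C hC1 => ?_⟩
   -- the case of an empty block, for large resolutions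
   by_cases hcase : p < x + q + ((σ 1).rot x - k)
   · obtain ⟨J₁, hJ₁⟩ := exists_nat_gt (4 / (x + q + ((σ 1).rot x - k) - p))
     refine Clp.base 1 one_pos J₁ (fun J hJ F A hS ς hς hς0 Λ κ pl al hP hN hO => ?_)
     have hJr : 4 / (x + q + ((σ 1).rot x - k) - p) < J := hJ₁.trans_le (by exact_mod_cast hJ)
     rw [div_lt_iff₀ (by linarith only [hcase])] at hJr
     have hJ0 : (0 : ℝ) ≤ J := Nat.cast_nonneg J
     have hA0 : 0 < Pe F.p A := lt_of_lt_of_le (Real.exp_pos _) (hC.st _ _ _ _ hS).2.2.2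
     have hn0 : nb (σ 1) p q k x y J = 0 := by
       by_contra hcon
       obtain ⟨-, -, -, l1, -⟩ := lev_one (xw := ⌊(x : ℝ) * J⌋₊)
         (lx := ⌊((σ 1).rot x - k) * J⌋₊) (ly := ⌊((σ 1).rot y - k) * J⌋₊) (Q := ⌊q * J⌋₊)
         (N := ⌊p * J⌋₊) (Lp := ⌊((σ 1).pi - k) * J⌋₊) (U := lu (σ 1) p q k x J)
         (r := lr p q x J) (n := nb (σ 1) p q k x y J) rfl rfl rfl (by omega)
       have b1 : (x : ℝ) * J < ⌊(x : ℝ) * J⌋₊ + 1 := Nat.lt_floor_add_one _
       have b2 : q * (J : ℝ) < ⌊q * (J : ℝ)⌋₊ + 1 := Nat.lt_floor_add_one _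
       have b3 : ((σ 1).rot x - k) * (J : ℝ) < ⌊((σ 1).rot x - k) * (J : ℝ)⌋₊ + 1 :=
         Nat.lt_floor_add_one _
       have b4 : (⌊p * (J : ℝ)⌋₊ : ℝ) ≤ p * J := Nat.floor_le (mul_nonneg hPV.p0.le hJ0)
       have b5 : ((⌊(x : ℝ) * J⌋₊ + ⌊q * (J : ℝ)⌋₊ + ⌊((σ 1).rot x - k) * (J : ℝ)⌋₊ +
           nb (σ 1) p q k x y J : ℕ) : ℝ) ≤ ⌊p * (J : ℝ)⌋₊ := by exact_mod_cast l1
       push_cast at b5
       have b6 : (0 : ℝ) ≤ nb (σ 1) p q k x y J := Nat.cast_nonneg _
       linarith only [hη11, hh0, hhη, hJr, b1, b2, b3, b4, b5]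
     rw [hn0]
     have h3 : 0 ≤ blk F A ς (σ 1) p q k κ pl al x 0 := CH_nonneg (isLaw_cond F.isLaw hA0).nonneg _ _
     have h4 : 0 ≤ (5 * ((y : ℝ) - x) + η) * J * Real.log 2 := by
       have : 0 ≤ 5 * ((y : ℝ) - x) + η := by linarith only [hxyr, hη1η, hh0, hhη]
       positivity
     push_cast
     linarith only [h3, h4]
   push Not at hcase
   exact by
    have hrx : (σ 1).rot x + h ≤ 1 := by linarith only [hp1, hx0r, hh0, hhq, hkq, hkk, hcase]
    -- the claims
    obtain ⟨C', hC'⟩ : ∃ C', C' = C + 8 := ⟨_, rfl⟩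
    have hC'1 : 1 ≤ C' := by rw [hC']; linarith only [hη11, hh0, hhη, hC1]
    obtain ⟨K₁, hK₁, hBB⟩ := hB C' hC'1
    obtain ⟨ϖ, hϖ⟩ : ∃ ϖ, ϖ = η₁ / 64 := ⟨_, rfl⟩
    obtain ⟨ε₀, hε₀⟩ : ∃ ε₀, ε₀ = η₁ / 256 := ⟨_, rfl⟩
    obtain ⟨β, hβ⟩ : ∃ β, β = min (η₁ / 256) (η₁ / 256 / K₁) := ⟨_, rfl⟩
    have hβ0 : 0 < β := by rw [hβ]; exact lt_min (by positivity) (by positivity)
    have hβ1 : β ≤ η₁ / 256 := by rw [hβ]; exact min_le_left _ _
    have hβ2 : K₁ * β ≤ η₁ / 256 := by
      have h1 : β ≤ η₁ / 256 / K₁ := by rw [hβ]; exact min_le_right _ _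
      rw [le_div_iff₀ hK₁] at h1
      linarith only [h1]
    have cE := hE S a R h₁ i₀ c s₂ r D₀ σ hC act κ₀ hact q a₀ α hAc (β ^ 2) C' (by positivity) hC'1
    have cT := hT S a R h₁ i₀ c s₂ r D₀ σ hC x hx0.le hx1 h ε₀ C' hh0 (by rw [hε₀]; positivity)
      hC'1 hrx
    have cF := hF S a R h₁ i₀ c s₂ r D₀ σ hC x y hx0.le hx1 hy0 hy1 (min k (q / 2)) ϖ C
      (lt_min hk (by positivity)) (by rw [hϖ]; positivity) hC1
    obtain ⟨τ, hτ⟩ : ∃ τ, τ = β ^ 2 / 8 := ⟨_, rfl⟩
    have hτ0 : 0 < τ := by rw [hτ]; positivity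
    have cS : Clp S (fun J F A => F.Tr ∧ F.Tm (τ * J) ∧ F.Rb (τ * J) ∧
        Real.exp (-(τ * J)) ≤ Pe F.p A) := Clp.base τ hτ0 0 fun J _ F A hS => by
      obtain ⟨g1, g2, g3, g4⟩ := hC.st τ J F A hS
      exact ⟨g1, g2.1, g3, g4⟩
    -- large resolutions
    obtain ⟨J₁, hJ₁⟩ := exists_nat_gt (16 / q + 16 / η₁ + 4 / (H - (p - x)) +
      8 / ((T + q - p) + ((x : ℝ) - v)) + 1 / β + 256 / β ^ 2 + 1 + 256 * K₁ / β / η₁ +
      16 * (K₁ + 2) / η₁)
    obtain ⟨J₂, hJ₂⟩ : ∃ J₂ : ℕ, ∀ J ≥ J₂, 4 * K₁ / β + 2 * Real.log ((J : ℝ) + 1) + 5 + K₁ ≤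
        η₁ / 32 * J := by
      obtain ⟨J₂, hJ₂⟩ := exists_nat_gt ((4 * K₁ / β + 5 + K₁ + η₁ / 64 - 2 * Real.log (η₁ / 128)) /
        (η₁ / 64))
      refine ⟨J₂, fun J hJ => ?_⟩
      have hJr : (4 * K₁ / β + 5 + K₁ + η₁ / 64 - 2 * Real.log (η₁ / 128)) / (η₁ / 64) < J :=
        hJ₂.trans_le (by exact_mod_cast hJ)
      rw [div_lt_iff₀ (by positivity)] at hJr
      have hJ0 : (0 : ℝ) ≤ J := Nat.cast_nonneg J
      have h1 := Real.log_le_sub_one_of_pos (x := η₁ / 128 * ((J : ℝ) + 1)) (by positivity)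
      rw [Real.log_mul (by positivity) (by positivity)] at h1
      linarith only [hη11, hβ0, hβ1, hJr, h1]
    exact by
     refine Clp.mono (J₂ := max J₁ J₂) (((cE.and cT).and cF).and cS) ?_
     rintro J hJ F A ⟨⟨⟨dE, dT⟩, dF⟩, ⟨sTr, sTm, sRb, sP⟩⟩ ς hς hς0 Λ κ pl al hP hN hO
     have hJ2 := hJ₂ J ((le_max_right _ _).trans hJ)
     have hJr : 16 / q + 16 / η₁ + 4 / (H - (p - x)) + 8 / ((T + q - p) + ((x : ℝ) - v)) + 1 / β +
         256 / β ^ 2 + 1 + 256 * K₁ / β / η₁ + 16 * (K₁ + 2) / η₁ < J :=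
       hJ₁.trans_le (by exact_mod_cast (le_max_left _ _).trans hJ)
     have hHx : 0 < H - (p - x) := by linarith only [hk00, hkH]
     have w1 : 0 < 16 / q := by positivity
     have w2 : 0 < 16 / η₁ := by positivity
     have w3 : 0 < 4 / (H - (p - x)) := by positivity
     have w4 : 0 < 8 / ((T + q - p) + ((x : ℝ) - v)) := by positivity
     have w5 : 0 < 1 / β := by positivity
     have w6 : 0 < 256 / β ^ 2 := by positivity
     have w7 : 0 < 256 * K₁ / β / η₁ := by positivity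
     have w8 : 0 < 16 * (K₁ + 2) / η₁ := by positivity
     have u1 : 16 ≤ q * J := by
       have : 16 / q < J := by linarith only [hη11, hβ0, hβ1, hJr, w2, w3, w4, w5, w6, w7, w8]
       rw [div_lt_iff₀ hq0] at this
       linarith only [this]
     have u2 : 16 ≤ η₁ * J := by
       have : 16 / η₁ < J := by linarith only [hη11, hβ0, hβ1, hJr, w1, w3, w4, w5, w6, w7, w8]
       rw [div_lt_iff₀ hη10] at this
       linarith only [this]
     have u3 : 4 ≤ (H - (p - x)) * J := by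
       have : 4 / (H - (p - x)) < J := by linarith only [hη11, hβ0, hβ1, hJr, w1, w2, w4, w5, w6, w7, w8]
       rw [div_lt_iff₀ hHx] at this
       linarith only [this]
     have u4 : 8 ≤ ((T + q - p) + ((x : ℝ) - v)) * J := by
       have : 8 / ((T + q - p) + ((x : ℝ) - v)) < J := by linarith only [hη11, hβ0, hβ1, hJr, w1, w2, w3, w5, w6, w7, w8]
       rw [div_lt_iff₀ hsl] at this
       linarith only [this]
     exact by
      have u5 : 1 ≤ β * J := by
        have : 1 / β < J := by linarith only [hη11, hβ0, hβ1, hJr, w1, w2, w3, w4, w6, w7, w8]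
        rw [div_lt_iff₀ hβ0] at this
        linarith only [this]
      have u6 : 256 ≤ β ^ 2 * J := by
        have : 256 / β ^ 2 < J := by linarith only [hη11, hβ0, hβ1, hJr, w1, w2, w3, w4, w5, w7, w8]
        rw [div_lt_iff₀ (by positivity)] at this
        linarith only [this]
      have u7 : (1 : ℝ) ≤ J := by linarith only [hJr, w1, w2, w3, w4, w5, w6, w7, w8]
      have u8 : 256 * K₁ / β ≤ η₁ * J := by
        have : 256 * K₁ / β / η₁ < J := by linarith only [hη11, hβ0, hβ1, hJr, w1, w2, w3, w4, w5, w6, w8]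
        rw [div_lt_iff₀ hη10] at this
        linarith only [this]
      have u9 : 16 * (K₁ + 2) ≤ η₁ * J := by
        have : 16 * (K₁ + 2) / η₁ < J := by linarith only [hη11, hβ0, hβ1, hJr, w1, w2, w3, w4, w5, w6, w7]
        rw [div_lt_iff₀ hη10] at this
        linarith only [this]
      have hJ0 : (0 : ℝ) < J := by linarith only [hη11, hβ0, hβ1, hJr, w1, w2, w3, w4, w5, w6, w7, w8]
      have hA0 : 0 < Pe F.p A := lt_of_lt_of_le (Real.exp_pos _) sP
      -- the natural numbers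
      obtain ⟨n, hn⟩ : ∃ n, n = nb (σ 1) p q k x y J := ⟨_, rfl⟩
      rw [← hn]
      by_cases hbig : 2 * (n : ℝ) ≤ (5 * ((y : ℝ) - x) + η) * J
      · have h3 : 0 ≤ blk F A ς (σ 1) p q k κ pl al x n := CH_nonneg (isLaw_cond F.isLaw hA0).nonneg _ _
        have h4 := mul_le_mul_of_nonneg_right hbig hu0.le
        linarith only [h3, h4]
      push Not at hbig
      obtain ⟨xw, hxw⟩ : ∃ xw, xw = ⌊(x : ℝ) * J⌋₊ := ⟨_, rfl⟩
      obtain ⟨yw, hyw⟩ : ∃ yw, yw = ⌊(y : ℝ) * J⌋₊ := ⟨_, rfl⟩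
      obtain ⟨vw, hvw⟩ : ∃ vw, vw = ⌊(v : ℝ) * J⌋₊ := ⟨_, rfl⟩
      exact by
       obtain ⟨lx, hlx⟩ : ∃ lx, lx = ⌊((σ 1).rot x - k) * J⌋₊ := ⟨_, rfl⟩
       obtain ⟨ly, hly⟩ : ∃ ly, ly = ⌊((σ 1).rot y - k) * J⌋₊ := ⟨_, rfl⟩
       obtain ⟨Q, hQ⟩ : ∃ Q, Q = ⌊q * J⌋₊ := ⟨_, rfl⟩
       obtain ⟨N, hNN⟩ : ∃ N, N = ⌊p * J⌋₊ := ⟨_, rfl⟩
       obtain ⟨Lp, hLp⟩ : ∃ Lp, Lp = ⌊((σ 1).pi - k) * J⌋₊ := ⟨_, rfl⟩
       have xu : (xw : ℝ) ≤ x * J := by rw [hxw]; exact Nat.floor_le (mul_nonneg hx0r.le hJ0.le)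
       have xl : (x : ℝ) * J < xw + 1 := by rw [hxw]; exact Nat.lt_floor_add_one _
       have yu : (yw : ℝ) ≤ y * J := by
         rw [hyw]; exact Nat.floor_le (mul_nonneg (by linarith only [hx0r, hxyr]) hJ0.le)
       have yl : (y : ℝ) * J < yw + 1 := by rw [hyw]; exact Nat.lt_floor_add_one _
       have Qu : (Q : ℝ) ≤ q * J := by rw [hQ]; exact Nat.floor_le (mul_nonneg hq0.le hJ0.le)
       have Ql : q * J < Q + 1 := by rw [hQ]; exact Nat.lt_floor_add_one _
       have Nu : (N : ℝ) ≤ p * J := by rw [hNN]; exact Nat.floor_le (mul_nonneg hPV.p0.le hJ0.le)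
       have lxl' : ((σ 1).rot x - k) * J < lx + 1 := by rw [hlx]; exact Nat.lt_floor_add_one _
       have hηJ : η₁ * J ≤ η * J := mul_le_mul_of_nonneg_right hη1η hJ0.le
       have hxyJ : 0 ≤ ((y : ℝ) - x) * J := mul_nonneg (by linarith only [hxyr]) hJ0.le
       have hnr : (5 / 2) * (((y : ℝ) - x) * J) + η₁ * J / 2 < n := by linarith only [hbig, hηJ]
       have hn1 : 1 ≤ n := by
         have : (0 : ℝ) < n := by linarith only [hη11, hK₁, hβ0, hβ1, u9, hbig, hηJ, hxyJ]
         exact_mod_cast this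
       obtain ⟨l1, l2, l3, l4, l5, l6⟩ := lev_one (xw := xw) (lx := lx) (ly := ly) (Q := Q) (N := N)
         (Lp := Lp) (U := lu (σ 1) p q k x J) (r := lr p q x J) (n := n)
         (by rw [hxw, hQ, hNN]; rfl) (by rw [hxw, hQ, hNN, hlx]; rfl)
         (by rw [hn, hNN, hQ, hlx, hly, hLp]; rfl) hn1
       have hNJ : N ≤ J := by
         have : (N : ℝ) ≤ J := Nu.trans (by nlinarith only [hp1])
         exact_mod_cast this
       have hmn : yw ≤ xw + n := by
         have : (yw : ℝ) < ((xw + n : ℕ) : ℝ) + 1 := by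
           push_cast
           linarith only [hη11, hK₁, hβ0, hβ1, u9, hbig, xl, yu, hηJ]
         have h2 : yw < xw + n + 1 := by exact_mod_cast this
         omega
       exact by
        have hxyw : xw ≤ yw := by
          rw [hxw, hyw]
          exact Nat.floor_le_floor (mul_le_mul_of_nonneg_right hxyr.le hJ0.le)
        have hvw' : vw ≤ xw := by
          rw [hxw, hvw]
          exact Nat.floor_le_floor (mul_le_mul_of_nonneg_right hvxr hJ0.le)
        have hly1 : 0 ≤ (σ 1).rot y - k := by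
          by_contra hcon
          push Not at hcon
          have : ly = 0 := by
            rw [hly]
            exact Nat.floor_of_nonpos (mul_nonpos_of_nonpos_of_nonneg hcon.le hJ0.le)
          omega
        have lyu : (ly : ℝ) ≤ ((σ 1).rot y - k) * J := by
          rw [hly]
          exact Nat.floor_le (mul_nonneg hly1 hJ0.le)
        have l5r : (lx : ℝ) + n ≤ ly := by exact_mod_cast l5
        have l6r : (lx : ℝ) + n + Q ≤ Lp := by exact_mod_cast l6
        have l4r : (xw : ℝ) + Q + lx + n ≤ N := by exact_mod_cast l4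
        have hεm1 : min k (q / 2) * J ≤ k * J := mul_le_mul_of_nonneg_right (min_le_left _ _) hJ0.le
        have hεm2 : min k (q / 2) * J ≤ Q := by
          have := mul_le_mul_of_nonneg_right (min_le_right k (q / 2)) hJ0.le
          linarith only [hη11, hβ0, hβ1, u1, Ql, this]
        have hnr0 : (0 : ℝ) ≤ n := Nat.cast_nonneg n
        -- the own slopes
        obtain ⟨B, hBA, hPB, hζ⟩ := dF ς hς hς0 al Lp hO.pt (by rw [hLp]; exact hO.on)
        have hPB2 : 1 / 2 * Pe F.p A ≤ Pe F.p B := by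
          refine le_trans (mul_le_mul_of_nonneg_right ?_ hA0.le) hPB
          rw [hϖ]
          linarith only [hη11, hβ0, hβ1]
        exact by
         have hB0 : 0 < Pe F.p B := lt_of_lt_of_le (by positivity) hPB2
         have hCC : C ≤ C' := by rw [hC']; linarith only [hη11, hβ0, hβ1]
         obtain ⟨ζx, hζx⟩ : ∃ ζ : ((Fin 3 → ℝ) × (Fin 3 → ℝ)) × F.ζ × ℕ → ℝ, ∀ ω, B ω →
             |al ω - ζ (slam F xw ω)| ≤ C' / 2 ^ lx := by
           by_cases hneg : 0 ≤ (σ 1).rot x - k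
           · have lxu : (lx : ℝ) ≤ ((σ 1).rot x - k) * J := by
               rw [hlx]
               exact Nat.floor_le (mul_nonneg hneg hJ0.le)
             obtain ⟨ζ, h1⟩ := hζ x (Or.inl rfl) lx (by linarith only [hη11, hK₁, hβ0, hβ1, u9, hbig, hηJ, hxyJ, l6r, hεm2]) (by linarith only [hεm1, lxu])
             refine ⟨ζ, fun ω hω => ?_⟩
             rw [hxw]
             refine (h1 ω hω).trans ?_
             exact div_le_div_of_nonneg_right hC'1 (by positivity)
           · have : lx = 0 := by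
               rw [hlx]
               exact Nat.floor_of_nonpos (mul_nonpos_of_nonpos_of_nonneg (by linarith only [hneg]) hJ0.le)
             refine ⟨fun _ => 0, fun ω hω => ?_⟩
             rw [this, pow_zero, div_one, sub_zero]
             exact (hO.bd ω (hBA ω hω)).trans hCC
         obtain ⟨ζy, hζy⟩ := hζ y (Or.inr rfl) (lx + n) (by push_cast; linarith only [l6r, hεm2])
           (by push_cast; linarith only [lyu, l5r, hεm1])
         rw [← hyw] at hζy
         obtain ⟨a', ha'⟩ : ∃ a' : F.Ω → ℝ, a' = fun ω =>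
           (⌊(2 : ℝ) ^ (lx + n) * ζy (slam F yw ω)⌋ : ℝ) / 2 ^ (lx + n) := ⟨_, rfl⟩
         obtain ⟨bN, kN, hbk⟩ := hN
         have hLD : LxD F B ς vw xw yw Q lx n N C' κ pl al a' := by
           refine ⟨hς, hC'1, hvw', hxyw, hmn, l4, hNJ, ?_, ?_, ?_, ?_, ?_, ?_, ?_, ?_, ?_, ?_, ?_⟩
           · obtain ⟨φ, h1⟩ := hP.pt
             exact ⟨φ, fun ω hω => h1 ω (hBA ω hω)⟩
           · obtain ⟨ψ, h1⟩ := hP.sl
             exact ⟨ψ, fun ω hω => by rw [hvw]; exact h1 ω (hBA ω hω)⟩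
           · obtain ⟨φ, h1⟩ := hO.pt
             exact ⟨φ, fun ω hω => h1 ω (hBA ω hω)⟩
           · exact fun ω hω => (hO.bd ω (hBA ω hω)).trans hCC
           · intro ω hω
             have h1 := hP.inc ω (hBA ω hω)
             exact ⟨h1.s_le.trans (by rw [hC']; linarith only [hη11, hC1, hβ0, hβ1]), h1.c_le.trans (by rw [hC']; linarith only [hη11, hC1, hβ0, hβ1])⟩
           · obtain ⟨nu, h1⟩ := hO.on
             refine ⟨nu, fun ω hω => (h1 ω (hBA ω hω)).trans ?_⟩
             rw [← hLp]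
             exact div_le_div₀ (by linarith only [hη11, hC1, hC', hβ0, hβ1]) hCC (by positivity)
               (pow_le_pow_right₀ (by norm_num) (by omega))
           · refine ⟨bN, kN, fun ω hω => ⟨(hbk ω (hBA ω hω)).1.trans ?_, (hbk ω (hBA ω hω)).2.trans ?_⟩⟩
             · refine div_le_div₀ (by linarith only [hη11, hC1, hC', hβ0, hβ1]) hCC (by positivity)
                 (pow_le_pow_right₀ (by norm_num) ?_)
               refine Nat.le_floor ?_
               rw [Nat.cast_sub (by omega)]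
               have := mul_le_mul_of_nonneg_right (show k ≤ (H - (p - x)) / 2 from hkk.trans hkH) hJ0.le
               linarith only [hη11, hβ0, hβ1, u3, xl, Nu, this]
             · refine div_le_div₀ (by linarith only [hη11, hC1, hC', hβ0, hβ1]) hCC (by positivity)
                 (pow_le_pow_right₀ (by norm_num) ?_)
               refine Nat.le_floor ?_
               rw [Nat.cast_sub (by omega), Nat.cast_sub (by omega)]
               have := mul_le_mul_of_nonneg_right
                 (show k ≤ ((T + q - p) + ((x : ℝ) - v)) / 2 from hkk.trans hkT) hJ0.le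
               linarith only [hη11, hβ0, hβ1, u4, xl, Ql, Nu, this]
           · intro ω
             exact ⟨⌊(2 : ℝ) ^ (lx + n) * ζy (slam F yw ω)⌋, by rw [ha']⟩
           · exact ⟨fun s => (⌊(2 : ℝ) ^ (lx + n) * ζy s⌋ : ℝ) / 2 ^ (lx + n), fun ω => by rw [ha']⟩
           · intro ω hω
             have h1 := hζy ω hω
             have pk : (0 : ℝ) < 2 ^ (lx + n) := by positivity
             have h2 : |ζy (slam F yw ω) - a' ω| ≤ 1 / 2 ^ (lx + n) := by
               have f1 := Int.floor_le ((2 : ℝ) ^ (lx + n) * ζy (slam F yw ω))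
               have f2 := Int.lt_floor_add_one ((2 : ℝ) ^ (lx + n) * ζy (slam F yw ω))
               have e1 : ζy (slam F yw ω) - a' ω = ((2 : ℝ) ^ (lx + n) * ζy (slam F yw ω) -
                   ⌊(2 : ℝ) ^ (lx + n) * ζy (slam F yw ω)⌋) / 2 ^ (lx + n) := by
                 rw [ha']
                 field_simp
               rw [e1, abs_div, abs_of_pos pk, div_le_div_iff_of_pos_right pk, abs_le]
               constructor <;> linarith
             have e2 : al ω - a' ω = (al ω - ζy (slam F yw ω)) + (ζy (slam F yw ω) - a' ω) := by ring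
             rw [e2]
             refine (abs_add_le _ _).trans ((add_le_add h1 h2).trans ?_)
             rw [← add_div]
             refine div_le_div_of_nonneg_right ?_ pk.le
             rw [hC']
             linarith only [hη11, hC1, hβ0, hβ1]
           · exact ⟨ζx, hζx⟩
         -- the rows of the first coordinate
         exact by
          have kE := dE B hBA hPB2 ς hς0 vw xw yw lx n N Λ κ pl al a' (by rw [← hQ]; exact hLD)
            (xw + Q + n) (by rw [← hQ]; omega) (by omega)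
          rw [← hQ] at kE
          have eE : (((xw + Q + n : ℕ) : ℝ) - ((yw + Q : ℕ) : ℝ)) = (n : ℝ) - (yw - xw) := by
            push_cast
            ring
          rw [eE] at kE
          -- the time
          have hτβ : τ * J + Real.log 2 ≤ β ^ 2 / 4 * J := by
            have h1 : Real.log 2 ≤ 1 := by
              have := Real.log_two_lt_d9
              linarith only [hη11, hβ0, hβ1, this]
            rw [hτ]
            linarith only [hη11, hβ0, hβ1, u6, h1]
          have kT := tm_sl (F := F) (B := B) (w := xw) hτ0.le (by positivity : 0 ≤ β ^ 2 / 4) sTr sTm sRb (by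
            refine le_trans ?_ hPB2
            refine le_trans ?_ (mul_le_mul_of_nonneg_left sP (by norm_num))
            have half : Real.exp (-Real.log 2) = 1 / 2 := by
              rw [Real.exp_neg, Real.exp_log (by norm_num)]
              norm_num
            rw [← half, ← Real.exp_add]
            exact Real.exp_le_exp.2 (by linarith only [hτβ])) (by omega : xw ≤ J)
          have kT' : ((J : ℝ) - xw) * Real.log 2 - β ^ 2 * J ≤
              CH (Pool.Agent.H49.Ent.cond F.p B True) F.T (slam F xw) := by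
            refine le_trans ?_ kT
            have h1 : (5 * τ + β ^ 2 / 4) * J ≤ β ^ 2 * J := by
              refine mul_le_mul_of_nonneg_right ?_ hJ0.le
              rw [hτ]
              have : 0 ≤ β ^ 2 := by positivity
              linarith only [hτ, hτ0]
            linarith only [h1]
          -- the separation
          exact by
           obtain ⟨g, hg⟩ : ∃ g, g = ⌈(k + 2 * h) * J⌉₊ + 1 := ⟨_, rfl⟩
           have hkh0 : 0 ≤ (k + 2 * h) * J := by positivity
           have gl : (k + 2 * h) * J + 1 ≤ g := by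
             rw [hg]
             push_cast
             linarith only [Nat.le_ceil ((k + 2 * h) * J)]
           have gu : (g : ℝ) ≤ (k + 2 * h) * J + 2 := by
             rw [hg]
             push_cast
             linarith only [hkh0, Nat.ceil_lt_add_one hkh0]
           have hkJ : k * J ≤ q / 8 * J := mul_le_mul_of_nonneg_right (hkk.trans hkq) hJ0.le
           have hhJ : h * J ≤ q / 16 * J := mul_le_mul_of_nonneg_right hhq hJ0.le
           have hkJ' : k * J ≤ η₁ / 64 * J := mul_le_mul_of_nonneg_right (hkk.trans hkη) hJ0.le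
           have hhJ' : h * J ≤ η₁ / 64 * J := mul_le_mul_of_nonneg_right hhη hJ0.le
           have kP := dT B hBA hPB2 ς hς hς0 vw (lx + n + Q) (N - xw) (N - xw - Q) (lx + g) Λ κ pl al
             (by rw [← hxw]; exact hvw') hLD.kpt hLD.ksl hLD.apt hLD.bal hLD.bpl hLD.on1 hLD.on2
             (by push_cast; linarith only [hη11, hβ0, hβ1, u1, hbig, Ql, lxl', hηJ, hxyJ, hhJ, hkJ'])
             (by rw [Nat.cast_sub (by omega)]; linarith only [hη11, hβ0, hβ1, u1, hbig, Ql, lxl', hηJ, hxyJ, l4r, hhJ, hkJ'])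
             (by rw [Nat.cast_sub (by omega), Nat.cast_sub (by omega)]; linarith only [hη11, hK₁, hβ0, hβ1, u9, hbig, lxl', hηJ, hxyJ, l4r, hkJ', hhJ'])
             (by push_cast; linarith only [lxl', gl])
           rw [← hxw] at kP
           -- the block
           have hnJ : (n : ℝ) ≤ J := by
             have : n ≤ J := by omega
             exact_mod_cast this
           have s1 : ε₀ + K₁ * (β ^ 2 * J + 1) / (β * J) ≤ 1 / 2 := by
             have e1 : K₁ * (β ^ 2 * J + 1) / (β * J) = K₁ * β + K₁ / β / J := by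
               field_simp
             have e2 : K₁ / β / J ≤ η₁ / 256 := by
               rw [div_le_iff₀ hJ0]
               have : 256 * K₁ / β = 256 * (K₁ / β) := by ring
               rw [this] at u8
               linarith only [u8]
             rw [e1, hε₀]
             linarith only [hη11, hβ0, hβ1, hβ2, e2]
           exact by
            have s2 : (g : ℝ) + K₁ ≤ n := by linarith only [hη11, hK₁, hβ0, hβ1, u9, hbig, hηJ, hxyJ, gu, hkJ', hhJ']
            have key := hBB J F B ς vw xw yw Q lx n N g Λ κ pl al a' (β ^ 2 * J) ε₀ (β * J) hB0 hLD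
              (by positivity) u5 s1 s2 kE kT' kP
            obtain ⟨w, hw⟩ : ∃ w : ℝ, w = (yw : ℝ) - xw := ⟨_, rfl⟩
            have hw0 : 0 ≤ w := by
              have : (xw : ℝ) ≤ yw := by exact_mod_cast hxyw
              rw [hw]
              linarith only [this]
            have loss := num_loss (J := J) (n := n) (g := g) (η := η₁) (k := k) (h := h) (ε₀ := ε₀) (β := β)
              (K₁ := K₁) (ϖ := ϖ) (D := 0) (L2 := Real.log 2) (xy := (y : ℝ) - x) (w := w) hη10 u7 rfl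
              hnJ hε₀ hβ0 hK₁ hβ2 hβ1 gu (by linarith only [hhη, hkη, hkk, hβ0, hβ1]) hϖ hw0 (by rw [hw]; linarith only [xl, yu]) (by linarith only [hxyr]) hJ2
            have hE0 : 0 ≤ 3 * w * Real.log 2 + (4 * (ε₀ + K₁ * (β ^ 2 * J + 1) / (β * J)) * n +
                8 * (β * J) + 2 * Real.log (n + 1) + g * Real.log 2 + K₁) := by
              have : 0 < ε₀ := by rw [hε₀]; positivity
              have : 0 ≤ Real.log ((n : ℝ) + 1) := Real.log_nonneg (by linarith only)
              positivity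
            have hblkB : 2 * n * Real.log 2 - (3 * w * Real.log 2 +
                (4 * (ε₀ + K₁ * (β ^ 2 * J + 1) / (β * J)) * n +
                8 * (β * J) + 2 * Real.log (n + 1) + g * Real.log 2 + K₁)) ≤
                blk F B ς (σ 1) p q k κ pl al x n := by
              unfold blk ld
              rw [l3, l1, l2, ← hNN]
              have e1 : xw + lx + Q = xw + Q + lx := by omega
              rw [e1]
              refine le_trans (le_of_eq ?_) key
              rw [hw]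
              ring
            have fin := blk_ev hBA hA0 (by rw [hϖ]; positivity : 0 ≤ ϖ) hPB hE0 hblkB
            have hfin2 : (5 * ((y : ℝ) - x) + η₁) * J * Real.log 2 ≤ (5 * ((y : ℝ) - x) + η) * J *
                Real.log 2 := by
              refine mul_le_mul_of_nonneg_right ?_ hu0.le
              linarith only [hηJ]
            linarith only [loss, fin, hfin2]

end Pool.S6V
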