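import Pool.Agent.H39.S6V.WfeQ
import Pool.Agent.H60.ZCL.BTail
import Pool.Agent.H24.S6D.LxS

/-!
# LEMMA X, the class half: the rows of the first coordinate
-/

set_option autoImplicit false

namespace Pool.S6V

open Finset Real
open Pool.Agent.H49.Ent Pool.Agent.H32.Dense Pool.STK Pool.KA Pool.KSAT Pool.K2S Pool.PB Pool.KS6
  Pool.S6C Pool.S6U

/-- The label without the base data, the time and the side information. -/
noncomputable def lxs {J : ℕ} (F : Fam 3 J) (ς : Fin 3 → Fin 3) (wx wy q E U' P : ℕ) {Λ : Type}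
    (κ : F.Ω → Λ) (pl : Λ → Pln) (a : F.Ω → ℝ) (ω : F.Ω) :=
  ((κ ω, a ω), ((⌊(2 : ℝ) ^ U' * fu (ς 0) (ς 1) (a ω) (F.x1 wy ω)⌋,
        ⌊(2 : ℝ) ^ P * fn (ς 0) (ς 1) (ς 2) (pl (κ ω)).c (pl (κ ω)).s (F.x1 wy ω)⌋),
      (⌊(2 : ℝ) ^ (E + q) * fu (ς 0) (ς 1) (a ω) (F.d ω)⌋,
        ⌊(2 : ℝ) ^ (P - wx) * fn (ς 0) (ς 1) (ς 2) (pl (κ ω)).c (pl (κ ω)).s (F.d ω)⌋)))

/-- The label is visible from the exact point and the base velocity, up to bounded entropy. -/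
theorem lxs_vis {J : ℕ} {F : Fam 3 J} {B : F.Ω → Prop} {ς : Fin 3 → Fin 3}
    {w₀ wx wy q D n P : ℕ} {C : ℝ} {Λ : Type} {κ : F.Ω → Λ} {pl : Λ → Pln} {al a : F.Ω → ℝ}
    (h : LxD F B ς w₀ wx wy q D n P C κ pl al a) {B' : F.Ω → Prop} (hB' : Sub B' B)
    (hB0 : 0 < Pe F.p B') :
    CH (Pool.Agent.H49.Ent.cond F.p B' True)
      (lxs F ς wx wy q (D + n) (wx + q + D + n) P κ pl a) (Pool.K2S.ptq F (ς 0) q) ≤
      Real.log (4 * C + 1) + 4 * Real.log (2 * (5 * C + 2) + 1) := by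
  have hl := isLaw_cond F.isLaw hB0
  obtain ⟨p, hp⟩ : ∃ p, p = Pool.Agent.H49.Ent.cond F.p B' True := ⟨_, rfl⟩
  rw [← hp] at hl ⊢
  have hB : ∀ ω, 0 < p ω → B ω := by
    intro ω hω
    rw [hp] at hω
    have := ((cond_pos_iff F.isLaw.nonneg B' True ω).1 hω).2
    exact hB' ω (by simpa using this)
  have hC1 := h.C1
  obtain ⟨φκ, hκ⟩ := h.kpt
  obtain ⟨φa, hφa⟩ := h.apt
  obtain ⟨nu, hnu⟩ := h.on1
  obtain ⟨b, k, hbk⟩ := h.on2
  choose z hz using h.grid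
  have hPJ := h.PJ
  have hlev := h.lev
  have hmn := h.mn
  have hxy := h.xy
  have hwJ : wy ≤ J := by omega
  -- the grid
  have c1 : CH p (fun ω (_ : Fin 1) => z ω) (Pool.K2S.ptq F (ς 0) q) ≤ Real.log (4 * C + 1) := by
    have h2 := CH_le_vec hl.nonneg hl.sum_one (fun ω (_ : Fin 1) => z ω)
      (Pool.K2S.ptq F (ς 0) q) (fun _ => 2 * C) (by
        intro ω ω' h1 h1' e _
        have e1 : Fam.pt F ω = Fam.pt F ω' := (Prod.ext_iff.mp e).1
        have g1 := h.near ω (hB ω h1)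
        have g2 := h.near ω' (hB ω' h1')
        rw [hφa ω (hB ω h1), hz ω] at g1
        rw [hφa ω' (hB ω' h1'), hz ω', ← e1] at g2
        have pk : (0 : ℝ) < 2 ^ (D + n) := by positivity
        have g3 : |(z ω : ℝ) / 2 ^ (D + n) - z ω' / 2 ^ (D + n)| ≤ 2 * C / 2 ^ (D + n) := by
          have e2 : (z ω : ℝ) / 2 ^ (D + n) - z ω' / 2 ^ (D + n) =
              (φa (Fam.pt F ω) - z ω' / 2 ^ (D + n)) -
                (φa (Fam.pt F ω) - z ω / 2 ^ (D + n)) := by ring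
          rw [e2]
          refine (abs_sub _ _).trans ((add_le_add g2 g1).trans (le_of_eq ?_))
          ring
        rw [← sub_div, abs_div, abs_of_pos pk, div_le_div_iff_of_pos_right pk] at g3
        push_cast
        exact g3)
    rw [Ex_const hl.sum_one] at h2
    have e3 : 2 * (2 * C) + 1 = 4 * C + 1 := by ring
    rw [e3] at h2
    simpa using h2
  -- two samples
  have two : ∀ ω ω', 0 < p ω → 0 < p ω' →
      ((fun _ : Fin 1 => z ω), Pool.K2S.ptq F (ς 0) q ω) =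
        ((fun _ : Fin 1 => z ω'), Pool.K2S.ptq F (ς 0) q ω') →
      κ ω = κ ω' ∧ a ω = a ω' ∧
      |(2 : ℝ) ^ (wx + q + D + n) * fu (ς 0) (ς 1) (a ω) (F.x1 wy ω) -
        2 ^ (wx + q + D + n) * fu (ς 0) (ς 1) (a ω') (F.x1 wy ω')| ≤ 5 * C + 1 ∧
      |(2 : ℝ) ^ P * fn (ς 0) (ς 1) (ς 2) (pl (κ ω)).c (pl (κ ω)).s (F.x1 wy ω) -
        2 ^ P * fn (ς 0) (ς 1) (ς 2) (pl (κ ω')).c (pl (κ ω')).s (F.x1 wy ω')| ≤ 5 * C + 1 ∧
      |(2 : ℝ) ^ (D + n + q) * fu (ς 0) (ς 1) (a ω) (F.d ω) -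
        2 ^ (D + n + q) * fu (ς 0) (ς 1) (a ω') (F.d ω')| ≤ 5 * C + 1 ∧
      |(2 : ℝ) ^ (P - wx) * fn (ς 0) (ς 1) (ς 2) (pl (κ ω)).c (pl (κ ω)).s (F.d ω) -
        2 ^ (P - wx) * fn (ς 0) (ς 1) (ς 2) (pl (κ ω')).c (pl (κ ω')).s (F.d ω')| ≤
          5 * C + 1 := by
    intro ω ω' h1 h1' e
    have hω := hB ω h1
    have hω' := hB ω' h1'
    have e1 := Prod.ext_iff.mp e
    have ez : z ω = z ω' := congrFun e1.1 0
    have e2 := Prod.ext_iff.mp e1.2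
    have hpt : Fam.pt F ω = Fam.pt F ω' := e2.1
    have hb : ⌊(2 : ℝ) ^ q * F.d ω (ς 0)⌋ = ⌊(2 : ℝ) ^ q * F.d ω' (ς 0)⌋ := e2.2
    have e4 : F.X J ω = F.X J ω' ∧ F.W ω = F.W ω' := Prod.ext_iff.mp hpt
    have hT : F.T ω = F.T ω' := (Prod.ext_iff.mp e4.2).1
    have hkk : κ ω = κ ω' := by rw [hκ ω hω, hκ ω' hω', hpt]
    have haa : a ω = a ω' := by rw [hz ω, hz ω', ez]
    have hal : al ω = al ω' := by rw [hφa ω hω, hφa ω' hω', hpt]
    have pq : (0 : ℝ) < 2 ^ q := by positivity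
    have hd : |F.d ω (ς 0) - F.d ω' (ς 0)| ≤ 1 / 2 ^ q := by
      have := Pool.S6K.Wfe.floor_eq_abs hb
      rw [← mul_sub, abs_mul, abs_of_pos pq] at this
      rw [le_div_iff₀ pq]
      linarith only [this]
    have hx : ∀ j, |F.x ω j - F.x ω' j| ≤ 1 / 2 ^ J := by
      intro j
      have h2 : ⌊(2 : ℝ) ^ J * F.x ω j⌋ = ⌊(2 : ℝ) ^ J * F.x ω' j⌋ := congrFun e4.1 j
      have := Pool.S6K.Wfe.floor_eq_abs h2
      have pJ : (0 : ℝ) < 2 ^ J := by positivity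
      rw [← mul_sub, abs_mul, abs_of_pos pJ] at this
      rw [le_div_iff₀ pJ]
      linarith only [this]
    rw [← hkk, ← haa]
    obtain ⟨s, hs⟩ : ∃ s, s = (pl (κ ω)).s := ⟨_, rfl⟩
    obtain ⟨c, hc⟩ : ∃ c, c = (pl (κ ω)).c := ⟨_, rfl⟩
    have hbs := (h.bpl ω hω).1
    have hbc := (h.bpl ω hω).2
    have hbk1 := (hbk ω hω).1
    have hbk2 := (hbk ω hω).2
    have hbk1' := (hbk ω' hω').1
    rw [← hkk, ← hpt] at hbk1'
    rw [← hs] at hbs hbk1 hbk1' ⊢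
    rw [← hc] at hbc hbk1 hbk1' ⊢
    have hnu1 := hnu ω hω
    have hnu1' := hnu ω' hω'
    rw [← hal, ← hpt] at hnu1'
    have hne := h.near ω hω
    have hba := h.bal ω hω
    -- the velocities
    obtain ⟨Δ, hΔ⟩ : ∃ Δ, Δ = F.d ω (ς 0) - F.d ω' (ς 0) := ⟨_, rfl⟩
    rw [← hΔ] at hd
    obtain ⟨τ, hτ⟩ : ∃ τ : ℝ, τ = ((F.T ω' % 2 ^ (J - wy) : ℕ) : ℝ) / 2 ^ (J - wy) := ⟨_, rfl⟩
    have hτm := Pool.S6K.Wfe.tau_mem F wy ω'
    rw [← hτ] at hτm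
    have v1 : |fu (ς 0) (ς 1) (a ω) (F.d ω) - fu (ς 0) (ς 1) (a ω) (F.d ω')| ≤
        3 * C / 2 ^ (D + n + q) := by
      have e5 : fu (ς 0) (ς 1) (a ω) (F.d ω) - fu (ς 0) (ς 1) (a ω) (F.d ω') =
          ((F.d ω (ς 1) - al ω * F.d ω (ς 0) - nu (Fam.pt F ω)) -
            (F.d ω' (ς 1) - al ω * F.d ω' (ς 0) - nu (Fam.pt F ω))) +
            (al ω - a ω) * Δ := by
        rw [hΔ]
        unfold fu
        ring
      rw [e5]
      refine (abs_add_le _ _).trans ?_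
      have e6 := (abs_sub (F.d ω (ς 1) - al ω * F.d ω (ς 0) - nu (Fam.pt F ω))
        (F.d ω' (ς 1) - al ω * F.d ω' (ς 0) - nu (Fam.pt F ω))).trans (add_le_add hnu1 hnu1')
      have e7 : |(al ω - a ω) * Δ| ≤ C / 2 ^ (D + n) * (1 / 2 ^ q) := by
        rw [abs_mul]
        exact mul_le_mul hne hd (abs_nonneg _) ((abs_nonneg _).trans hne)
      have e8 : C / 2 ^ (D + n) * (1 / 2 ^ q) = C / 2 ^ (D + n + q) := by
        rw [pow_add 2 (D + n) q]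
        field_simp
      rw [e8] at e7
      calc _ ≤ (C / 2 ^ (D + n + q) + C / 2 ^ (D + n + q)) + C / 2 ^ (D + n + q) :=
            add_le_add e6 e7
        _ = 3 * C / 2 ^ (D + n + q) := by ring
    have v2 : |fn (ς 0) (ς 1) (ς 2) c s (F.d ω) - fn (ς 0) (ς 1) (ς 2) c s (F.d ω')| ≤
        3 * C / 2 ^ (P - wx) := by
      have e5 : fn (ς 0) (ς 1) (ς 2) c s (F.d ω) - fn (ς 0) (ς 1) (ς 2) c s (F.d ω') =
          ((fn (ς 0) (ς 1) (ς 2) c s (F.d ω) - b (Fam.pt F ω) -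
              k (Fam.pt F ω) * F.d ω (ς 0)) -
            (fn (ς 0) (ς 1) (ς 2) c s (F.d ω') - b (Fam.pt F ω) -
              k (Fam.pt F ω) * F.d ω' (ς 0))) + k (Fam.pt F ω) * Δ := by
        rw [hΔ]
        ring
      rw [e5]
      refine (abs_add_le _ _).trans ?_
      have e6 := (abs_sub (fn (ς 0) (ς 1) (ς 2) c s (F.d ω) - b (Fam.pt F ω) -
              k (Fam.pt F ω) * F.d ω (ς 0)) (fn (ς 0) (ς 1) (ς 2) c s (F.d ω') -
              b (Fam.pt F ω) - k (Fam.pt F ω) * F.d ω' (ς 0))).trans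
        (add_le_add hbk1 hbk1')
      have e7 : |k (Fam.pt F ω) * Δ| ≤ C / 2 ^ (P - wx - q) * (1 / 2 ^ q) := by
        rw [abs_mul]
        exact mul_le_mul hbk2 hd (abs_nonneg _) ((abs_nonneg _).trans hbk2)
      have e8 : C / 2 ^ (P - wx - q) * (1 / 2 ^ q) = C / 2 ^ (P - wx) := by
        have e9 : P - wx = (P - wx - q) + q := by omega
        rw [e9, pow_add 2 (P - wx - q) q, ← e9]
        field_simp
      rw [e8] at e7
      calc _ ≤ (C / 2 ^ (P - wx) + C / 2 ^ (P - wx)) + C / 2 ^ (P - wx) := add_le_add e6 e7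
        _ = 3 * C / 2 ^ (P - wx) := by ring
    -- the positions
    have x1e : ∀ j, F.x1 wy ω j - F.x1 wy ω' j = (F.x ω j - F.x ω' j) -
        τ * (2 ^ wy)⁻¹ * (F.d ω j - F.d ω' j) := by
      intro j
      rw [Pool.S6K.Wfe.x1_eq F hwJ, Pool.S6K.Wfe.x1_eq F hwJ, hT, ← hτ]
      ring
    have hτ1 : |τ * (2 ^ wy)⁻¹| ≤ (2 ^ wy)⁻¹ := by
      rw [abs_of_nonneg (mul_nonneg hτm.1 (by positivity))]
      calc τ * (2 ^ wy)⁻¹ ≤ 1 * (2 ^ wy)⁻¹ := mul_le_mul_of_nonneg_right hτm.2 (by positivity)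
        _ = (2 ^ wy)⁻¹ := one_mul _
    have ha2 : |a ω| ≤ 2 * C := by
      have e5 : a ω = al ω - (al ω - a ω) := by ring
      rw [e5]
      refine (abs_sub _ _).trans ?_
      have e6 : C / 2 ^ (D + n) ≤ C := div_le_self (by linarith only [hC1]) (one_le_pow₀ (by norm_num))
      linarith only [hne, hba, e6]
    have pJ : (0 : ℝ) < 2 ^ J := by positivity
    have x1u : |fu (ς 0) (ς 1) (a ω) (F.x1 wy ω) - fu (ς 0) (ς 1) (a ω) (F.x1 wy ω')| ≤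
        (1 + 2 * C) / 2 ^ J + (2 ^ wy)⁻¹ * (3 * C / 2 ^ (D + n + q)) := by
      have e5 : fu (ς 0) (ς 1) (a ω) (F.x1 wy ω) - fu (ς 0) (ς 1) (a ω) (F.x1 wy ω') =
          ((F.x ω (ς 1) - F.x ω' (ς 1)) - a ω * (F.x ω (ς 0) - F.x ω' (ς 0))) -
            τ * (2 ^ wy)⁻¹ *
              (fu (ς 0) (ς 1) (a ω) (F.d ω) - fu (ς 0) (ς 1) (a ω) (F.d ω')) := by
        have a1 := x1e (ς 1)
        have a0 := x1e (ς 0)
        unfold fu
        linear_combination a1 - a ω * a0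
      rw [e5]
      refine (abs_sub _ _).trans (add_le_add ?_ ?_)
      · refine (abs_sub _ _).trans ?_
        rw [abs_mul]
        have e6 := mul_le_mul ha2 (hx (ς 0)) (abs_nonneg _) (by linarith only [hC1])
        have e7 := hx (ς 1)
        calc _ ≤ 1 / 2 ^ J + 2 * C * (1 / 2 ^ J) := add_le_add e7 e6
          _ = (1 + 2 * C) / 2 ^ J := by ring
      · rw [abs_mul]
        exact mul_le_mul hτ1 v1 (abs_nonneg _) (by positivity)
    have x1n : |fn (ς 0) (ς 1) (ς 2) c s (F.x1 wy ω) - fn (ς 0) (ς 1) (ς 2) c s (F.x1 wy ω')| ≤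
        (1 + 2 * C) / 2 ^ J + (2 ^ wy)⁻¹ * (3 * C / 2 ^ (P - wx)) := by
      have e5 : fn (ς 0) (ς 1) (ς 2) c s (F.x1 wy ω) - fn (ς 0) (ς 1) (ς 2) c s (F.x1 wy ω') =
          (c * (F.x ω (ς 0) - F.x ω' (ς 0)) + s * (F.x ω (ς 1) - F.x ω' (ς 1)) +
            (F.x ω (ς 2) - F.x ω' (ς 2))) -
            τ * (2 ^ wy)⁻¹ *
              (fn (ς 0) (ς 1) (ς 2) c s (F.d ω) - fn (ς 0) (ς 1) (ς 2) c s (F.d ω')) := by
        have a2 := x1e (ς 2)
        have a1 := x1e (ς 1)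
        have a0 := x1e (ς 0)
        unfold fn
        linear_combination c * a0 + s * a1 + a2
      rw [e5]
      refine (abs_sub _ _).trans (add_le_add ?_ ?_)
      · refine (abs_add_le _ _).trans ?_
        have e6 : |c * (F.x ω (ς 0) - F.x ω' (ς 0)) + s * (F.x ω (ς 1) - F.x ω' (ς 1))| ≤
            C * (1 / 2 ^ J) + C * (1 / 2 ^ J) := by
          refine (abs_add_le _ _).trans (add_le_add ?_ ?_)
          · rw [abs_mul]
            exact mul_le_mul hbc (hx (ς 0)) (abs_nonneg _) (by linarith only [hC1])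
          · rw [abs_mul]
            exact mul_le_mul hbs (hx (ς 1)) (abs_nonneg _) (by linarith only [hC1])
        calc _ ≤ (C * (1 / 2 ^ J) + C * (1 / 2 ^ J)) + 1 / 2 ^ J := add_le_add e6 (hx (ς 2))
          _ = (1 + 2 * C) / 2 ^ J := by ring
      · rw [abs_mul]
        exact mul_le_mul hτ1 v2 (abs_nonneg _) (by positivity)
    -- scaling
    have sc : ∀ (N M : ℕ) (x : ℝ), N ≤ J → N ≤ M + wy →
        |x| ≤ (1 + 2 * C) / 2 ^ J + (2 ^ wy)⁻¹ * (3 * C / 2 ^ M) →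
        (2 : ℝ) ^ N * |x| ≤ 5 * C + 1 := by
      intro N M x hNJ hNM hx'
      have pN : (0 : ℝ) ≤ 2 ^ N := by positivity
      refine (mul_le_mul_of_nonneg_left hx' pN).trans ?_
      rw [mul_add]
      have e6 : (2 : ℝ) ^ N * ((1 + 2 * C) / 2 ^ J) ≤ 1 + 2 * C := by
        have e7 : (2 : ℝ) ^ N * ((1 + 2 * C) / 2 ^ J) = (1 + 2 * C) * (2 ^ N / 2 ^ J) := by
          ring
        rw [e7]
        have e8 : (2 : ℝ) ^ N / 2 ^ J ≤ 1 := by
          rw [div_le_one pJ]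
          exact pow_le_pow_right₀ (by norm_num) hNJ
        calc _ ≤ (1 + 2 * C) * 1 := mul_le_mul_of_nonneg_left e8 (by linarith only [hC1])
          _ = _ := mul_one _
      have e9 : (2 : ℝ) ^ N * ((2 ^ wy)⁻¹ * (3 * C / 2 ^ M)) ≤ 3 * C := by
        have e7 : (2 : ℝ) ^ N * ((2 ^ wy)⁻¹ * (3 * C / 2 ^ M)) =
            3 * C * (2 ^ N / (2 ^ M * 2 ^ wy)) := by
          field_simp
        rw [e7]
        have e8 : (2 : ℝ) ^ N / (2 ^ M * 2 ^ wy) ≤ 1 := by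
          rw [div_le_one (by positivity), ← pow_add]
          exact pow_le_pow_right₀ (by norm_num) hNM
        calc _ ≤ 3 * C * 1 := mul_le_mul_of_nonneg_left e8 (by linarith only [hC1])
          _ = _ := mul_one _
      linarith only [e6, e9]
    have sv : ∀ (M : ℕ) (x : ℝ), |x| ≤ 3 * C / 2 ^ M → (2 : ℝ) ^ M * |x| ≤ 5 * C + 1 := by
      intro M x hx'
      have pM : (0 : ℝ) < 2 ^ M := by positivity
      rw [le_div_iff₀ pM] at hx'
      linarith only [hC1, hx']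
    refine ⟨rfl, rfl, ?_, ?_, ?_, ?_⟩
    · rw [← mul_sub, abs_mul, abs_of_pos (by positivity)]
      exact sc _ (D + n + q) _ (by omega) (by omega) x1u
    · rw [← mul_sub, abs_mul, abs_of_pos (by positivity)]
      exact sc _ (P - wx) _ hPJ (by omega) x1n
    · rw [← mul_sub, abs_mul, abs_of_pos (by positivity)]
      exact sv _ _ v1
    · rw [← mul_sub, abs_mul, abs_of_pos (by positivity)]
      exact sv _ _ v2
  obtain ⟨Y, hY⟩ : ∃ Y : F.Ω → Fin 4 → ℤ, Y = fun ω =>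
      ![⌊(2 : ℝ) ^ (wx + q + D + n) * fu (ς 0) (ς 1) (a ω) (F.x1 wy ω)⌋,
        ⌊(2 : ℝ) ^ P * fn (ς 0) (ς 1) (ς 2) (pl (κ ω)).c (pl (κ ω)).s (F.x1 wy ω)⌋,
        ⌊(2 : ℝ) ^ (D + n + q) * fu (ς 0) (ς 1) (a ω) (F.d ω)⌋,
        ⌊(2 : ℝ) ^ (P - wx) * fn (ς 0) (ς 1) (ς 2) (pl (κ ω)).c (pl (κ ω)).s (F.d ω)⌋] :=
    ⟨_, rfl⟩
  have c2 : CH p Y (fun ω => ((fun _ : Fin 1 => z ω), Pool.K2S.ptq F (ς 0) q ω)) ≤
      4 * Real.log (2 * (5 * C + 2) + 1) := by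
    have h2 := CH_le_vec hl.nonneg hl.sum_one Y
      (fun ω => ((fun _ : Fin 1 => z ω), Pool.K2S.ptq F (ς 0) q ω)) (fun _ => 5 * C + 2) (by
        intro ω ω' h1 h1' e j
        obtain ⟨-, -, b1, b2, b3, b4⟩ := two ω ω' h1 h1' e
        have key : |((Y ω j - Y ω' j : ℤ) : ℝ)| ≤ 5 * C + 1 + 1 := by
          rw [hY]
          fin_cases j
          · exact Pool.S6K.Wfe.floor_diff b1
          · exact Pool.S6K.Wfe.floor_diff b2
          · exact Pool.S6K.Wfe.floor_diff b3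
          · exact Pool.S6K.Wfe.floor_diff b4
        linarith only [key])
    rw [Ex_const hl.sum_one] at h2
    exact_mod_cast h2
  have d1 := CH_le_add hl.nonneg (lxs F ς wx wy q (D + n) (wx + q + D + n) P κ pl a)
    (fun ω (_ : Fin 1) => z ω) (Pool.K2S.ptq F (ς 0) q)
  have d2 : CH p (lxs F ς wx wy q (D + n) (wx + q + D + n) P κ pl a)
      (fun ω => ((fun _ : Fin 1 => z ω), Pool.K2S.ptq F (ς 0) q ω)) ≤
      CH p Y (fun ω => ((fun _ : Fin 1 => z ω), Pool.K2S.ptq F (ς 0) q ω)) := by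
    refine CH_mono_left hl.nonneg fun ω ω' h1 h1' e => ?_
    have e1 := Prod.ext_iff.mp e
    obtain ⟨hkk, haa, -⟩ := two ω ω' h1 h1' e1.2
    have e2 : Y ω = Y ω' := e1.1
    rw [hY] at e2
    exact Prod.ext (Prod.ext hkk haa) (Prod.ext (Prod.ext (congrFun e2 0) (congrFun e2 1))
      (Prod.ext (congrFun e2 2) (congrFun e2 3)))
  linarith only [c1, c2, d1, d2]

/-- The label is a function of the window of the line. -/
theorem lxs_det {J : ℕ} (F : Fam 3 J) (ς : Fin 3 → Fin 3) {wx wy q E U' P : ℕ} {Λ : Type}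
    {κ : F.Ω → Λ} {pl : Λ → Pln} {a : F.Ω → ℝ}
    (hκ : ∀ ω ω', slam F wy ω = slam F wy ω' → κ ω = κ ω')
    (ha : ∀ ω ω', slam F wy ω = slam F wy ω' → a ω = a ω') :
    Det F.p (wnd F wy) (lxs F ς wx wy q E U' P κ pl a) := by
  intro ω ω' _ _ e
  have a1 := Prod.ext_iff.mp e
  have a2 := Prod.ext_iff.mp a1.2
  have hl : F.l ω = F.l ω' := a1.1
  have hT1 : F.T1 wy ω = F.T1 wy ω' := a2.1
  have hZ : F.Z ω = F.Z ω' := a2.2
  have hs : slam F wy ω = slam F wy ω' := Prod.ext hl (Prod.ext hZ hT1)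
  have hlu : F.u ω = F.u ω' := (Prod.ext_iff.mp hl).1
  have hld : F.d ω = F.d ω' := (Prod.ext_iff.mp hl).2
  have hx : F.x1 wy ω = F.x1 wy ω' := Pool.KA.Win.x1_det F wy hlu hld hT1
  unfold lxs
  rw [hκ ω ω' hs, ha ω ω' hs, hx, hld]

/-- **(LXE)** -/
theorem lxe_thm : LxEStmt := by
  intro S a₁ R h₁ i₀ c s₂ r D₀ σ hCs act κ₀ hA q a₀ α hq η C hη hC1
  classical
  obtain ⟨γ, hγ, hfull⟩ := Pool.S6K.Wfe.ws_cls (m := 3) hη
  obtain ⟨kb, hkb, Jb, hnf⟩ := Bas.neg (fun J F => FrzG.hered F i₀ _ _)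
    (not_frz hCs.st hA.num hq hγ)
  obtain ⟨τw, hτw, Jw, hw⟩ := hfull
    (Real.log (4 * C + 1) + 4 * Real.log (2 * (5 * C + 2) + 1)) (kb / 4) (by positivity)
  obtain ⟨τ, hτ⟩ : ∃ τ, τ = min (τw / 2) (kb / 2) := ⟨_, rfl⟩
  have hτ0 : 0 < τ := by rw [hτ]; exact lt_min (by positivity) (by positivity)
  have hτ1 : τ ≤ τw / 2 := by rw [hτ]; exact min_le_left _ _
  have hτ2 : τ ≤ kb / 2 := by rw [hτ]; exact min_le_right _ _
  obtain ⟨J₃, hJ₃⟩ := exists_nat_gt (4 * Real.log 2 / kb + 2 * Real.log 2 / τw)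
  refine (Bas.clp ⟨τ, hτ0, max Jw (max Jb J₃), ?_⟩)
  intro J hJ F A hS B hB hPB ς hς w₀ wx wy D n P Λ κ pl al a hL r' hr1 hr2
  have hJw : Jw ≤ J := (le_max_left _ _).trans hJ
  have hJb : Jb ≤ J := (le_max_left _ _).trans ((le_max_right _ _).trans hJ)
  have hJ3 : 4 * Real.log 2 / kb + 2 * Real.log 2 / τw < J :=
    hJ₃.trans_le (by exact_mod_cast (le_max_right _ _).trans ((le_max_right _ _).trans hJ))
  have hJr : (0 : ℝ) ≤ J := Nat.cast_nonneg J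
  have hl2 : 0 < Real.log 2 := Real.log_pos (by norm_num)
  have q1 : 0 < 4 * Real.log 2 / kb := by positivity
  have q2 : 0 < 2 * Real.log 2 / τw := by positivity
  have r1 : Real.log 2 ≤ kb / 4 * J := by
    have h1 : 4 * Real.log 2 / kb < J := by linarith only [hJ3, q2]
    rw [div_lt_iff₀ hkb] at h1
    linarith only [h1]
  have r2 : Real.log 2 ≤ τw / 2 * J := by
    have h1 : 2 * Real.log 2 / τw < J := by linarith only [hJ3, q1]
    rw [div_lt_iff₀ hτw] at h1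
    linarith only [h1]
  have hSt := hCs.st τ J F A hS
  have hSt2 := Fam.Stt.mono (by linarith only [hτ0, hτ1] : τ ≤ τw) hSt
  have hPA0 : 0 ≤ Pe F.p A := Pe_nonneg F.isLaw A
  have half : Real.exp (-Real.log 2) = 1 / 2 := by
    rw [Real.exp_neg, Real.exp_log (by norm_num)]
    norm_num
  -- sub-events
  have hnf' : ∀ B' : F.Ω → Prop, Sub B' B → Real.exp (-(kb / 4 * J)) * Pe F.p B ≤ Pe F.p B' →
      ¬ FrzG F i₀ ⌊q * J⌋₊ (⌊q * J⌋₊ + ⌊γ * J⌋₊) B' := by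
    intro B' hB' hP'
    refine hnf J hJb F B' (S.mono (by linarith only [hτ2] : τ + kb / 2 ≤ kb)
      (S.res (by positivity) hS (fun ω hω => hB ω (hB' ω hω)) ?_))
    refine le_trans ?_ hP'
    refine le_trans ?_ (mul_le_mul_of_nonneg_left hPB (Real.exp_pos _).le)
    rw [← half, ← mul_assoc, ← Real.exp_add]
    refine mul_le_mul_of_nonneg_right (Real.exp_le_exp.2 ?_) hPA0
    linarith only [r1]
  have hPB0 : Real.exp (-(τw * J)) ≤ Pe F.p B := by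
    refine le_trans ?_ hPB
    refine le_trans ?_ (mul_le_mul_of_nonneg_left hSt.2.2.2 (by norm_num))
    rw [← half, ← Real.exp_add]
    refine Real.exp_le_exp.2 ?_
    have := mul_le_mul_of_nonneg_right hτ1 hJr
    linarith only [r2, this]
  have hBB : ¬ FrzG F i₀ ⌊q * J⌋₊ (⌊q * J⌋₊ + ⌊γ * J⌋₊) B := hnf' B (fun _ h => h) (by
    have h1 : Real.exp (-(kb / 4 * J)) ≤ 1 := by
      rw [Real.exp_le_one_iff]
      have : 0 ≤ kb / 4 * (J : ℝ) := by positivity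
      linarith only [hl2, r1]
    calc _ ≤ 1 * Pe F.p B := mul_le_mul_of_nonneg_right h1 (Pe_nonneg F.isLaw B)
      _ = _ := one_mul _)
  -- the closed label
  obtain ⟨ψ, hψ⟩ := hL.ksl
  obtain ⟨ζ, hζ⟩ := hL.asl
  have hPJ := hL.PJ
  have hlev := hL.lev
  have hmn := hL.mn
  have hxy := hL.xy
  have hw0 := hL.w0x
  have hwJ : wy ≤ J := by omega
  obtain ⟨κ', hκ'⟩ : ∃ κ' : F.Ω → Λ, κ' = fun ω => ψ (slam F w₀ ω) := ⟨_, rfl⟩
  have hkk : ∀ ω, B ω → κ ω = κ' ω := fun ω hω => by rw [hκ', hψ ω hω]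
  have hdet : Det F.p (wnd F wy)
      (lxs F ς wx wy ⌊q * J⌋₊ (D + n) (wx + ⌊q * J⌋₊ + D + n) P κ' pl a) := by
    refine lxs_det F ς (fun ω ω' e => ?_) (fun ω ω' e => by rw [hζ ω, hζ ω', e])
    have e1 := Prod.ext_iff.mp e
    have e2 := Prod.ext_iff.mp e1.2
    have e3 : F.T1 w₀ ω = F.T1 w₀ ω' := by
      obtain ⟨K, hK⟩ := Nat.exists_eq_add_of_le (hw0.trans hxy)
      rw [hK] at e2 hwJ
      have e4 : F.T1 (w₀ + K) ω = F.T1 (w₀ + K) ω' := e2.2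
      rw [Pool.KSAT.T1_div F hwJ ω, Pool.KSAT.T1_div F hwJ ω', e4]
    have e5 : slam F w₀ ω = slam F w₀ ω' := Prod.ext e1.1 (Prod.ext e2.1 e3)
    rw [hκ']
    change ψ (slam F w₀ ω) = ψ (slam F w₀ ω')
    rw [e5]
  have hvis : ∀ B' : F.Ω → Prop, Sub B' B → 0 < Pe F.p B' →
      CH (Pool.Agent.H49.Ent.cond F.p B' True)
        (lxs F ς wx wy ⌊q * J⌋₊ (D + n) (wx + ⌊q * J⌋₊ + D + n) P κ' pl a)
        (Pool.K2S.ptq F i₀ ⌊q * J⌋₊) ≤
        Real.log (4 * C + 1) + 4 * Real.log (2 * (5 * C + 2) + 1) := by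
    intro B' hB' hB0
    have h1 := lxs_vis hL hB' hB0
    rw [hς] at h1
    have hl := isLaw_cond F.isLaw hB0
    refine le_trans (CH_mono_left hl.nonneg fun ω ω' hω hω' e => ?_) h1
    have b1 : B ω := by
      have := ((cond_pos_iff F.isLaw.nonneg B' True ω).1 hω).2
      exact hB' ω (by simpa using this)
    have b2 : B ω' := by
      have := ((cond_pos_iff F.isLaw.nonneg B' True ω').1 hω').2
      exact hB' ω' (by simpa using this)
    have e1 := (Prod.ext_iff.mp e).1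
    unfold lxs at e1 ⊢
    rw [← hkk ω b1, ← hkk ω' b2]
    exact e1
  obtain ⟨k, hk⟩ := Nat.exists_eq_add_of_le (show ⌊q * (J : ℝ)⌋₊ + wy ≤ r' by omega)
  have key := hw J hJw F B hSt2.1 hSt2.2.1.1 hSt2.2.2.1 hPB0 i₀ wy ⌊q * J⌋₊ k ⌊γ * J⌋₊ _ _
    (by omega) (Nat.floor_le (by positivity)) (Or.inr hnf') hBB hdet hvis
  rw [← hk] at key
  have e1 : ((r' : ℝ) - (wy + ⌊q * J⌋₊ : ℕ)) = k := by
    rw [hk]
    push_cast
    ring
  rw [e1, hς]
  refine key.trans (CH_mono_cond (cond_nonneg F.isLaw.nonneg B True) ?_)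
  intro ω ω' hω hω' e
  have b1 : B ω := by
    have := ((cond_pos_iff F.isLaw.nonneg B True ω).1 hω).2
    simpa using this
  have b2 : B ω' := by
    have := ((cond_pos_iff F.isLaw.nonneg B True ω').1 hω').2
    simpa using this
  unfold lxs at e
  unfold lxl
  beta_reduce at e
  rw [hς] at e ⊢
  rw [← hkk ω b1, ← hkk ω' b2] at e
  exact e

end Pool.S6V
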