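import Pool.Agent.H39.S6V.Blk
import Pool.Agent.H39.S6V.LxE
import Pool.Agent.H5.S6D.LxT
import Pool.Agent.H87.LX.LxF
import Pool.Agent.H86.LX.Lxb

/-!
# LEMMA X in the class
-/

set_option autoImplicit false

namespace Pool.S6V

/-- The block of LEMMA X is full. -/
theorem blk_thm : Pool.LXC.BLKStmt := blkv_of lxe_thm lxt_thm lxf_thm Pool.LX.lxb_thm

/-- **(LX)** -/
theorem lx_thm : LXStmt := Pool.LXC.lx_of_blk blk_thm

end Pool.S6V
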