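import Pool.Agent.H64.KS6.Wfe
import Pool.Agent.H65.S6.Wf2
import Pool.Agent.H77.S6C.UV2

/-!
# The rows of the base position are full in contexts with linear labels, at an active velocity
-/

set_option autoImplicit false

namespace Pool.S6V

open Finset Real
open Pool.Agent.H49.Ent Pool.Agent.H32.Dense Pool.STK Pool.KA Pool.KSAT Pool.K2S Pool.PB
  Pool.S6C Pool.S6K.Wfe

/-- The base velocity is not frozen at an active place. -/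
theorem not_frz {S : PCl 3} {a₁ R : ℝ} {i₀ : Fin 3} {act : ℚ → ℝ}
    (hSt : ∀ (τ : ℝ) (J : ℕ) (F : Fam 3 J) (A : F.Ω → Prop), S.St τ J F A → Fam.Stt F a₁ R τ A)
    (hact : ActN S i₀ act) {q a₀ α : ℝ} (hq : AcP act q a₀ α) {γ : ℝ} (hγ : 0 < γ) :
    Clp S (fun J F A => ¬ FrzG F i₀ ⌊q * J⌋₊ (⌊q * J⌋₊ + ⌊γ * J⌋₊) A) := by
  classical
  have hq0 := hq.q0
  have hq1 := hq.q1
  have hα := hq.α0
  obtain ⟨u, hu⟩ : ∃ u, u = Real.log 2 := ⟨_, rfl⟩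
  have hu0 : 0 < u := by rw [hu]; exact Real.log_pos (by norm_num)
  obtain ⟨δ, hδ, hs⟩ := hq.slp (α / 8) (by positivity)
  obtain ⟨d, hd⟩ : ∃ d, d = min (min δ γ) (1 - q) / 2 := ⟨_, rfl⟩
  have hd0 : 0 < d := by
    rw [hd]
    exact half_pos (lt_min (lt_min hδ hγ) (by linarith))
  have hd1 : 2 * d ≤ δ := by
    rw [hd]
    have : min (min δ γ) (1 - q) ≤ δ := (min_le_left _ _).trans (min_le_left _ _)
    linarith
  have hd2 : 2 * d ≤ γ := by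
    rw [hd]
    have : min (min δ γ) (1 - q) ≤ γ := (min_le_left _ _).trans (min_le_right _ _)
    linarith
  have hd3 : 2 * d ≤ 1 - q := by
    rw [hd]
    have : min (min δ γ) (1 - q) ≤ 1 - q := min_le_right _ _
    linarith
  obtain ⟨q₁, h11, h12⟩ := exists_rat_btwn (show q < q + d / 4 by linarith)
  obtain ⟨q₂, h21, h22⟩ := exists_rat_btwn (show q + 3 * d / 4 < q + d by linarith)
  have s1 := hs q₁ (by rw [abs_of_pos (by linarith)]; linarith)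
  have s2 := hs q₂ (by rw [abs_of_pos (by linarith)]; linarith)
  rw [abs_of_pos (by linarith : (0 : ℝ) < (q₁ : ℝ) - q)] at s1
  rw [abs_of_pos (by linarith : (0 : ℝ) < (q₂ : ℝ) - q)] at s2
  have s3 : 3 / 8 * (α * d) ≤ act q₂ - act q₁ := by
    have a1 := (abs_le.1 s1).2
    have a2 := (abs_le.1 s2).1
    have b1 : α * ((q₁ : ℝ) - q) ≤ α * (d / 4) := mul_le_mul_of_nonneg_left (by linarith) hα.le
    have b2 : α * (3 * d / 4) ≤ α * ((q₂ : ℝ) - q) :=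
      mul_le_mul_of_nonneg_left (by linarith) hα.le
    linarith
  have hαd : 0 < α * d := by positivity
  have hq10 : (0 : ℚ) ≤ q₁ := by
    have : (0 : ℝ) < q₁ := by linarith
    exact_mod_cast this.le
  have hq11 : q₁ ≤ (1 : ℚ) := by
    have : (q₁ : ℝ) ≤ 1 := by linarith
    exact_mod_cast this
  have hq20 : (0 : ℚ) ≤ q₂ := by
    have : (0 : ℝ) < q₂ := by linarith
    exact_mod_cast this.le
  have hq21 : q₂ ≤ (1 : ℚ) := by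
    have : (q₂ : ℝ) ≤ 1 := by linarith
    exact_mod_cast this
  have T1 := hact q₁ hq10 hq11 (α * d * u / 16) (by positivity)
  have T2 := hact q₂ hq20 hq21 (α * d * u / 16) (by positivity)
  have P : Clp S (fun J F A => 0 < Pe F.p A) := Clp.of one_pos 0 (fun J _ F A hS => by
    obtain ⟨c1, c2, c3, c4⟩ := hSt 1 J F A hS
    exact lt_of_lt_of_le (Real.exp_pos _) c4)
  obtain ⟨J₂, hJ₂⟩ := exists_nat_gt (16 * Real.log 13 / (α * d * u))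
  refine Clp.mono (J₂ := J₂) ((T1.and T2).and P) ?_
  rintro J hJ F A ⟨⟨hT1, hT2⟩, hpA⟩ hF
  have hJ2 : 16 * Real.log 13 / (α * d * u) < J := hJ₂.trans_le (by exact_mod_cast hJ)
  have hl13 : 0 ≤ Real.log 13 := Real.log_nonneg (by norm_num)
  have hJ0 : (0 : ℝ) < J := lt_of_le_of_lt (by positivity) hJ2
  rw [div_lt_iff₀ (by positivity)] at hJ2
  have hl := isLaw_cond F.isLaw hpA
  have hK : ⌊(q₂ : ℝ) * J⌋₊ ≤ ⌊q * J⌋₊ + ⌊γ * J⌋₊ + 1 := by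
    have e1 := Nat.lt_floor_add_one (q * (J : ℝ))
    have e2 := Nat.lt_floor_add_one (γ * (J : ℝ))
    have e3 : (q₂ : ℝ) * J ≤ (q + γ) * J := mul_le_mul_of_nonneg_right (by linarith) hJ0.le
    have e4 := Nat.floor_le (by positivity : 0 ≤ (q₂ : ℝ) * (J : ℝ))
    have e5 : ((⌊(q₂ : ℝ) * J⌋₊ : ℕ) : ℝ) < ((⌊q * J⌋₊ + ⌊γ * J⌋₊ + 1 + 1 : ℕ) : ℝ) := by
      push_cast
      linarith
    have e6 := Nat.cast_lt.1 e5
    omega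
  have c1 := Pool.UST.Wf2.frz_le hl hK hF
  have c2 : CH (Pool.Agent.H49.Ent.cond F.p A True) (fun ω => F.D ⌊q * J⌋₊ ω i₀) (Fam.pt F) ≤
      CH (Pool.Agent.H49.Ent.cond F.p A True) (fun ω => F.D ⌊(q₁ : ℝ) * J⌋₊ ω i₀)
        (Fam.pt F) := by
    refine CH_mono_left hl.nonneg fun ω ω' _ _ e => ?_
    have e1 : ⌊(2 : ℝ) ^ ⌊(q₁ : ℝ) * J⌋₊ * F.d ω i₀⌋ =
        ⌊(2 : ℝ) ^ ⌊(q₁ : ℝ) * J⌋₊ * F.d ω' i₀⌋ := (Prod.ext_iff.1 e).1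
    have e2 : fl ⌊(q₁ : ℝ) * J⌋₊ (fun _ : Fin 1 => F.d ω i₀) =
        fl ⌊(q₁ : ℝ) * J⌋₊ (fun _ : Fin 1 => F.d ω' i₀) := funext fun _ => e1
    have e3 : ⌊q * (J : ℝ)⌋₊ ≤ ⌊(q₁ : ℝ) * J⌋₊ :=
      Nat.floor_le_floor (mul_le_mul_of_nonneg_right h11.le hJ0.le)
    exact congrFun (Pool.STK.B58.fl_fine e3 e2) 0
  rw [← hu] at hT1 hT2
  have c3 := (abs_le.1 hT1).2
  have c4 := (abs_le.1 hT2).1
  have c5 : 3 / 8 * (α * d) * (u * J) ≤ (act q₂ - act q₁) * (u * J) :=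
    mul_le_mul_of_nonneg_right s3 (by positivity)
  have c6 : 0 < α * d * (u * J) := by positivity
  nlinarith

/-- **(WFE)** at an active velocity, in a class: contexts with linear labels. -/
theorem wfe_act {S : PCl 3} {a₁ R : ℝ} {i₀ : Fin 3} {act : ℚ → ℝ}
    (hSt : ∀ (τ : ℝ) (J : ℕ) (F : Fam 3 J) (A : F.Ω → Prop), S.St τ J F A → Fam.Stt F a₁ R τ A)
    (hact : ActN S i₀ act) {q a₀ α : ℝ} (hq : AcP act q a₀ α) {η : ℝ} (hη : 0 < η)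
    (n₀ : ℕ) (Bc C δ : ℝ) :
    Clp S (fun J F A => ∀ (w H : ℕ) (f n : (Fin 3 → ℤ) × (ℕ × F.ζ) → Fin 3 → ℝ) (σ : Type)
      (P V g : Fin n₀ → ℕ) (z : F.Ω → Fin n₀ → Fin 3 → ℝ) (s : F.Ω → σ),
      LOK F A i₀ w ⌊q * J⌋₊ H f n P V g z s Bc C δ → ∀ p : ℕ, ⌊q * J⌋₊ + w ≤ p → p ≤ J →
      ((p : ℝ) - (⌊q * J⌋₊ + w : ℕ)) * Real.log 2 - η * J ≤
        CH (Pool.Agent.H49.Ent.cond F.p A True) (fun ω => ⌊(2 : ℝ) ^ p * F.x ω i₀⌋)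
          (fun ω => (((⌊(2 : ℝ) ^ (⌊q * J⌋₊ + w) * F.x1 w ω i₀⌋,
            ⌊(2 : ℝ) ^ ⌊q * J⌋₊ * F.d ω i₀⌋), lab F w P V z s ω), F.T ω))) := by
  obtain ⟨γ, hγ, hfull⟩ := wfe_one (m := 3) (r := n₀) hη
  have hnf := not_frz hSt hact hq hγ
  have h1 : Clp S (fun J F A => ¬ FrzG F i₀ ⌊q * J⌋₊ (⌊q * J⌋₊ + ⌊γ * J⌋₊) A →
      ∀ (w H : ℕ) (f n : (Fin 3 → ℤ) × (ℕ × F.ζ) → Fin 3 → ℝ) (σ : Type)
      (P V g : Fin n₀ → ℕ) (z : F.Ω → Fin n₀ → Fin 3 → ℝ) (s : F.Ω → σ),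
      LOK F A i₀ w ⌊q * J⌋₊ H f n P V g z s Bc C δ → ∀ p : ℕ, ⌊q * J⌋₊ + w ≤ p → p ≤ J →
      ((p : ℝ) - (⌊q * J⌋₊ + w : ℕ)) * Real.log 2 - η * J ≤
        CH (Pool.Agent.H49.Ent.cond F.p A True) (fun ω => ⌊(2 : ℝ) ^ p * F.x ω i₀⌋)
          (fun ω => (((⌊(2 : ℝ) ^ (⌊q * J⌋₊ + w) * F.x1 w ω i₀⌋,
            ⌊(2 : ℝ) ^ ⌊q * J⌋₊ * F.d ω i₀⌋), lab F w P V z s ω), F.T ω))) := by
    refine Clp.one ⟨1, fun J F _ => FrzG F i₀ ⌊q * J⌋₊ (⌊q * J⌋₊ + ⌊γ * J⌋₊),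
      fun J F _ => FrzG.hered F i₀ _ _⟩ fun κ hκ => ?_
    obtain ⟨τ, hτ, J₁, k1⟩ := hfull Bc C δ κ hκ
    refine ⟨τ, hτ, J₁, fun J hJ F A hS hSb hnF w H f n σ P V g z s hL p hp hpJ => ?_⟩
    obtain ⟨c1, c2, c3, c4⟩ := hSt τ J F A hS
    exact k1 J hJ F A c1 c2.1 c3 c4 i₀ w ⌊q * J⌋₊ ⌊γ * J⌋₊ H (Nat.floor_le (by positivity))
      (hSb 0) hnF f n σ P V g z s hL p hp hpJ
  refine Clp.mono (J₂ := 0) (h1.and hnf) ?_
  rintro J - F A ⟨h2, h3⟩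
  exact h2 h3

end Pool.S6V
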